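import Pool.Agent.Helper15.CC.SymA
import Pool.Agent.Helper9.CC.Stm
import Pool.Agent.Helper9.FJ.Basic

/-!
# Symmetric powers of bundles (package SYM)
-/

set_option autoImplicit false

namespace Pool.Agent.Helper15.CC

open FF Module MvPolynomial Pool.Agent.Helper9.FJ Pool.Agent.Helper9.PP Pool.Agent.Helper9.CC

theorem sym : S_SYM := by
  intro K _ _ _ r E q N hr
  classical
  have hK : CharZero K := charZero_of_injective_algebraMap (algebraMap ℂ K).injective
  choose t ht0 ht using fun P : Place ℂ K => P.surj
  set n : ℕ := Fintype.card (Mn r q) with hn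
  set e : Mn r q ≃ Fin n := Fintype.equivFin (Mn r q) with he
  have hdet : ∀ P, ((t P ^ (-N P)) • (SM q (E.B P)).submatrix e.symm e.symm).det =
      (t P ^ (-N P)) ^ n * (SM q (E.B P)).det := by
    intro P
    rw [Matrix.det_smul, Matrix.det_submatrix_equiv_self, Fintype.card_fin]
  set F : Bundle K n :=
    { B := fun P => (t P ^ (-N P)) • (SM q (E.B P)).submatrix e.symm e.symm
      det_ne := fun P => by
        rw [hdet]
        exact mul_ne_zero (pow_ne_zero _ (zpow_ne_zero _ (ht0 P))) (SM_det_ne q _ (E.det_ne P))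
      fin := by
        refine (E.fin.union N.support.finite_toSet).subset ?_
        intro P hP
        by_contra h
        rw [Set.mem_union, not_or] at h
        obtain ⟨h1, h2⟩ := h
        have h3 : E.B P = 1 := by
          by_contra h4
          exact h1 h4
        have h4 : N P = 0 := by
          by_contra h5
          exact h2 (Finsupp.mem_support_iff.2 h5)
        apply hP
        rw [h3, h4, SM_one, neg_zero, zpow_zero, one_smul, Matrix.submatrix_one_equiv] } with hF
  have hnpos : 0 < n := by
    have : Nonempty (Mn r q) := by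
      refine ⟨⟨Finsupp.single ⟨0, hr⟩ q, (mn_mem _).2 ?_⟩⟩
      rw [Finset.sum_eq_single (⟨0, hr⟩ : Fin r)]
      · rw [Finsupp.single_eq_same]
      · intro i _ hi
        rw [Finsupp.single_eq_of_ne hi]
      · intro h
        exact absurd (Finset.mem_univ _) h
    exact Fintype.card_pos
  refine ⟨n, F, hnpos, ?_, ?_⟩
  · -- the degree
    have h1 : r • F.detDiv = (q * n) • E.detDiv + (r * n) • N := by
      ext P
      have e1 : F.detDiv P = -P.ord (F.B P).det := rfl
      have e2 : E.detDiv P = -P.ord (E.B P).det := rfl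
      have e3 : (F.B P).det = (t P ^ (-N P)) ^ n * (SM q (E.B P)).det := hdet P
      have e4 := congrArg P.ord (SM_det q (E.B P) (E.det_ne P))
      rw [P.ord_pow, P.ord_pow] at e4
      rw [Finsupp.add_apply, Finsupp.smul_apply, Finsupp.smul_apply, Finsupp.smul_apply, e1, e2, e3,
        P.ord_mul (pow_ne_zero _ (zpow_ne_zero _ (ht0 P))) (SM_det_ne q _ (E.det_ne P)), P.ord_pow,
        P.ord_zpow, ht P]
      simp only [nsmul_eq_mul]
      rw [← hn] at e4
      push_cast at e4 ⊢
      linear_combination -e4
    have h2 := congrArg ddeg h1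
    rw [ddeg_add, ddeg_nsmul, ddeg_nsmul, ddeg_nsmul] at h2
    have h3 : ((r : ℤ) * ddeg F.detDiv : ℝ) =
        ((q * n : ℕ) : ℤ) * ddeg E.detDiv + ((r * n : ℕ) : ℤ) * ddeg N := by
      exact_mod_cast h2
    have hr0 : (r : ℝ) ≠ 0 := by
      have : r ≠ 0 := by omega
      exact_mod_cast this
    push_cast at h3
    field_simp
    linear_combination h3
  · -- the sections
    rintro N0 ⟨v, hv0, hv⟩
    set s : MvPolynomial (Fin r) K := ∑ α : Mn r q, C (v (e α)) * monomial α.1 1 with hs
    have hsc : ∀ β : Mn r q, coeff β.1 s = v (e β) := by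
      intro β
      rw [hs, coeff_sum, Finset.sum_eq_single β]
      · rw [coeff_C_mul, coeff_monomial, if_pos rfl, mul_one]
      · intro α _ hα
        rw [coeff_C_mul, coeff_monomial, if_neg, mul_zero]
        intro h
        exact hα (Subtype.ext h)
      · intro h
        exact absurd (Finset.mem_univ _) h
    have hsh : s.IsHomogeneous q := by
      refine IsHomogeneous.sum _ _ _ fun α _ => ?_
      have := (isHomogeneous_C (Fin r) (v (e α))).mul (mon_hom (K := K) α)
      rwa [zero_add] at this
    refine ⟨s, ?_, hsh, ?_⟩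
    · intro h0
      apply hv0
      funext i
      have h1 := hsc (e.symm i)
      rw [h0, coeff_zero, Equiv.apply_symm_apply] at h1
      rw [← h1]
      rfl
    · intro P α
      have hl : loc E P s = sub (E.B P)⁻¹ s := rfl
      rw [hl]
      by_cases hα : ∑ i, α i = q
      · obtain ⟨γ, rfl⟩ : ∃ γ : Mn r q, α = γ.1 := ⟨⟨α, (mn_mem α).2 hα⟩, rfl⟩
        rw [coeff_sub _ hsh]
        have hinv : (F.B P)⁻¹ = (t P ^ (N P)) • (SM q (E.B P)⁻¹).submatrix e.symm e.symm := by
          refine Matrix.inv_eq_right_inv ?_
          change ((t P ^ (-N P)) • (SM q (E.B P)).submatrix e.symm e.symm) *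
            ((t P ^ (N P)) • (SM q (E.B P)⁻¹).submatrix e.symm e.symm) = 1
          rw [Matrix.smul_mul, Matrix.mul_smul, smul_smul, Matrix.submatrix_mul_equiv, ← SM_mul,
            Matrix.mul_nonsing_inv _ (isUnit_iff_ne_zero.2 (E.det_ne P)), SM_one,
            Matrix.submatrix_one_equiv, ← zpow_add₀ (ht0 P), neg_add_cancel, zpow_zero, one_smul]
        have h1 := hv P (e γ)
        rw [hinv, Matrix.vecMul_smul, Pi.smul_apply, smul_eq_mul] at h1
        have h2 : Matrix.vecMul v ((SM q (E.B P)⁻¹).submatrix e.symm e.symm) (e γ) =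
            ∑ β : Mn r q, coeff β.1 s * SM q (E.B P)⁻¹ β γ := by
          rw [Matrix.vecMul, dotProduct, ← Equiv.sum_comp e]
          refine Finset.sum_congr rfl fun β _ => ?_
          rw [Matrix.submatrix_apply, Equiv.symm_apply_apply, Equiv.symm_apply_apply, hsc]
        rw [h2] at h1
        refine Ge.of_mul (zpow_ne_zero (N P) (ht0 P)) ?_
        rw [P.ord_zpow, ht P]
        convert h1 using 1
        rw [Finsupp.add_apply]
        ring
      · refine Or.inl ?_
        refine (sub_hom _ hsh).coeff_eq_zero ?_
        rw [Finsupp.degree_eq_sum]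
        exact hα

end Pool.Agent.Helper15.CC
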