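import Mathlib

/-!
# The determinant of symmetric powers
-/

set_option autoImplicit false

namespace Pool.Agent.Helper15.CC

open MvPolynomial Finset

section

variable {K : Type} [Field K] {r : ℕ}

/-- the substitution -/
noncomputable def sub (A : Matrix (Fin r) (Fin r) K) : MvPolynomial (Fin r) K →ₐ[K] MvPolynomial (Fin r) K :=
  aeval (fun j => ∑ i, C (A j i) * X i)

theorem sub_X (A : Matrix (Fin r) (Fin r) K) (j : Fin r) :
    sub A (X j) = ∑ i, C (A j i) * X i := by
  unfold sub
  rw [aeval_X]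

theorem sub_mul (A B : Matrix (Fin r) (Fin r) K) (f : MvPolynomial (Fin r) K) :
    sub (A * B) f = sub B (sub A f) := by
  have h : sub (A * B) = (sub B).comp (sub A) := by
    apply MvPolynomial.algHom_ext
    intro j
    rw [AlgHom.comp_apply, sub_X, sub_X, map_sum]
    have h1 : ∀ i, sub B (C (A j i) * X i) = ∑ k, C (A j i * B i k) * X k := by
      intro i
      rw [map_mul, sub_X]
      have h2 : sub B (C (A j i)) = C (A j i) := (sub B).commutes (A j i)
      rw [h2, mul_sum]
      refine sum_congr rfl fun k _ => ?_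
      rw [C_mul]
      ring
    rw [sum_congr rfl fun i _ => h1 i, sum_comm]
    refine sum_congr rfl fun k _ => ?_
    rw [Matrix.mul_apply, map_sum, sum_mul]
  rw [h]
  rfl

theorem sub_one (f : MvPolynomial (Fin r) K) : sub (1 : Matrix (Fin r) (Fin r) K) f = f := by
  have h : sub (1 : Matrix (Fin r) (Fin r) K) = AlgHom.id K _ := by
    apply MvPolynomial.algHom_ext
    intro j
    rw [sub_X, AlgHom.id_apply, sum_eq_single j]
    · rw [Matrix.one_apply_eq, C_1, one_mul]
    · intro i _ hi
      rw [Matrix.one_apply_ne hi.symm, C_0, zero_mul]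
    · intro h
      exact absurd (mem_univ j) h
  rw [h]
  rfl

theorem sub_hom (A : Matrix (Fin r) (Fin r) K) {f : MvPolynomial (Fin r) K} {q : ℕ}
    (hf : f.IsHomogeneous q) : (sub A f).IsHomogeneous q := by
  have h := hf.aeval (S := K) (fun j => ∑ i, C (A j i) * X i : Fin r → MvPolynomial (Fin r) K)
    (n := 1) (by
      intro j
      refine IsHomogeneous.sum _ _ _ fun i _ => ?_
      have := (isHomogeneous_C (Fin r) (A j i)).mul (isHomogeneous_X K i)
      rwa [zero_add] at this)
  rwa [one_mul] at h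

/-- the monomials of degree `q` -/
abbrev Mn (r q : ℕ) : Type := ↥(Finset.finsuppAntidiag (univ : Finset (Fin r)) q)

theorem mn_mem {q : ℕ} (α : Fin r →₀ ℕ) :
    α ∈ Finset.finsuppAntidiag (univ : Finset (Fin r)) q ↔ ∑ i, α i = q := by
  rw [mem_finsuppAntidiag]
  simp

theorem mn_sum {q : ℕ} (α : Mn r q) : ∑ i, α.1 i = q := (mn_mem α.1).1 α.2

theorem mon_hom {q : ℕ} (α : Mn r q) : (monomial α.1 (1 : K)).IsHomogeneous q := by
  refine isHomogeneous_monomial _ ?_
  rw [Finsupp.degree_eq_sum]
  exact mn_sum α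

/-- the matrix of the symmetric power -/
noncomputable def SM (q : ℕ) (A : Matrix (Fin r) (Fin r) K) : Matrix (Mn r q) (Mn r q) K :=
  Matrix.of fun α β => coeff β.1 (sub A (monomial α.1 1))

theorem hom_expand {q : ℕ} {f : MvPolynomial (Fin r) K} (hf : f.IsHomogeneous q) :
    f = ∑ β : Mn r q, C (coeff β.1 f) * monomial β.1 1 := by
  ext γ
  rw [coeff_sum]
  simp only [coeff_C_mul, coeff_monomial]
  by_cases hγ : ∑ i, γ i = q
  · rw [sum_eq_single (⟨γ, (mn_mem γ).2 hγ⟩ : Mn r q)]
    · simp
    · intro β _ hβ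
      rw [if_neg, mul_zero]
      intro h
      exact hβ (Subtype.ext h)
    · intro h
      exact absurd (mem_univ _) h
  · rw [hf.coeff_eq_zero]
    · symm
      refine sum_eq_zero fun β _ => ?_
      rw [if_neg, mul_zero]
      intro h
      exact hγ (h ▸ mn_sum β)
    · rw [Finsupp.degree_eq_sum]
      exact hγ

theorem coeff_sub {q : ℕ} (A : Matrix (Fin r) (Fin r) K) {f : MvPolynomial (Fin r) K}
    (hf : f.IsHomogeneous q) (γ : Mn r q) :
    coeff γ.1 (sub A f) = ∑ β : Mn r q, coeff β.1 f * SM q A β γ := by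
  conv_lhs => rw [hom_expand hf]
  rw [map_sum, coeff_sum]
  refine sum_congr rfl fun β _ => ?_
  have h2 : sub A (C (coeff β.1 f)) = C (coeff β.1 f) := (sub A).commutes _
  rw [map_mul, h2, coeff_C_mul]
  rfl

theorem SM_mul (q : ℕ) (A B : Matrix (Fin r) (Fin r) K) : SM q (A * B) = SM q A * SM q B := by
  ext α γ
  rw [Matrix.mul_apply]
  change coeff γ.1 (sub (A * B) (monomial α.1 1)) = _
  rw [sub_mul, coeff_sub B (sub_hom A (mon_hom α))]
  rfl

theorem SM_one (q : ℕ) : SM q (1 : Matrix (Fin r) (Fin r) K) = 1 := by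
  ext α γ
  change coeff γ.1 (sub 1 (monomial α.1 1)) = _
  rw [sub_one, coeff_monomial, Matrix.one_apply]
  congr 1
  exact propext ⟨fun h => Subtype.ext h, fun h => congrArg _ h⟩

theorem SM_det_ne (q : ℕ) (A : Matrix (Fin r) (Fin r) K) (hA : A.det ≠ 0) : (SM q A).det ≠ 0 := by
  have h1 : SM q A * SM q A⁻¹ = 1 := by
    rw [← SM_mul, Matrix.mul_nonsing_inv _ (isUnit_iff_ne_zero.2 hA), SM_one]
  have h2 := congrArg Matrix.det h1
  rw [Matrix.det_mul, Matrix.det_one] at h2
  exact left_ne_zero_of_mul (h2 ▸ one_ne_zero)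

theorem SM_inv (q : ℕ) (A : Matrix (Fin r) (Fin r) K) (hA : A.det ≠ 0) :
    (SM q A)⁻¹ = SM q A⁻¹ := by
  have h1 : SM q A * SM q A⁻¹ = 1 := by
    rw [← SM_mul, Matrix.mul_nonsing_inv _ (isUnit_iff_ne_zero.2 hA), SM_one]
  exact Matrix.inv_eq_right_inv h1

theorem sub_diag (d : Fin r → K) (α : Fin r →₀ ℕ) :
    sub (Matrix.diagonal d) (monomial α 1) = monomial α (∏ i, d i ^ α i) := by
  have h1 : ∀ j, sub (Matrix.diagonal d) (X j) = C (d j) * X j := by
    intro j
    rw [sub_X, sum_eq_single j]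
    · rw [Matrix.diagonal_apply_eq]
    · intro i _ hi
      rw [Matrix.diagonal_apply_ne _ hi.symm, C_0, zero_mul]
    · intro h
      exact absurd (mem_univ j) h
  have h2 : (monomial α (1 : K)) = ∏ i, X i ^ α i := by
    rw [monomial_eq, C_1, one_mul, Finsupp.prod_fintype]
    intro i
    rw [pow_zero]
  have h3 : monomial α (∏ i, d i ^ α i) = C (∏ i, d i ^ α i) * monomial α (1 : K) := by
    rw [C_mul_monomial, mul_one]
  rw [h3, h2, map_prod, map_prod, ← prod_mul_distrib]
  refine prod_congr rfl fun i _ => ?_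
  rw [map_pow, h1, mul_pow, C_pow]

theorem SM_diag (q : ℕ) (d : Fin r → K) :
    SM q (Matrix.diagonal d) = Matrix.diagonal fun α : Mn r q => ∏ i, d i ^ α.1 i := by
  ext α γ
  change coeff γ.1 (sub _ (monomial α.1 1)) = _
  rw [sub_diag, coeff_monomial, Matrix.diagonal_apply]
  congr 1
  exact propext ⟨fun h => Subtype.ext h, fun h => congrArg _ h⟩

/-- permuting the variables -/
theorem mn_sym (q : ℕ) (i j : Fin r) : ∑ α : Mn r q, α.1 i = ∑ α : Mn r q, α.1 j := by
  have key : ∀ α : Fin r →₀ ℕ, ∑ k, α k = q →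
      ∑ k, (Finsupp.equivMapDomain (Equiv.swap i j) α) k = q := by
    intro α h
    rw [← h]
    simp only [Finsupp.equivMapDomain_apply]
    exact Equiv.sum_comp (Equiv.swap i j).symm (fun k => α k)
  refine sum_bij' (fun α _ => (⟨Finsupp.equivMapDomain (Equiv.swap i j) α.1,
      (mn_mem _).2 (key α.1 (mn_sum α))⟩ : Mn r q))
    (fun α _ => (⟨Finsupp.equivMapDomain (Equiv.swap i j) α.1,
      (mn_mem _).2 (key α.1 (mn_sum α))⟩ : Mn r q)) ?_ ?_ ?_ ?_ ?_
  · intro α _
    exact mem_univ _
  · intro α _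
    exact mem_univ _
  · intro α _
    apply Subtype.ext
    ext k
    simp [Finsupp.equivMapDomain_apply]
  · intro α _
    apply Subtype.ext
    ext k
    simp [Finsupp.equivMapDomain_apply]
  · intro α _
    simp [Finsupp.equivMapDomain_apply]

theorem mn_cnt (q : ℕ) (i : Fin r) : r * ∑ α : Mn r q, α.1 i = q * Fintype.card (Mn r q) := by
  have h1 : ∑ j : Fin r, ∑ α : Mn r q, α.1 j = r * ∑ α : Mn r q, α.1 i := by
    rw [sum_congr rfl fun j _ => mn_sym q j i, sum_const, card_univ, Fintype.card_fin, smul_eq_mul]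
  rw [← h1, sum_comm, sum_congr rfl fun α _ => mn_sum α, sum_const, card_univ, smul_eq_mul,
    mul_comm]

theorem SM_diag_det (q : ℕ) (d : Fin r → K) :
    (SM q (Matrix.diagonal d)).det ^ r = (Matrix.diagonal d).det ^ (q * Fintype.card (Mn r q)) := by
  rw [SM_diag, Matrix.det_diagonal, Matrix.det_diagonal, prod_comm, ← prod_pow, ← prod_pow]
  refine prod_congr rfl fun i _ => ?_
  rw [prod_pow_eq_pow_sum, ← pow_mul, mul_comm, mn_cnt]

theorem SM_transvection [CharZero K] (q : ℕ) (i j : Fin r) (hij : i ≠ j) (c : K) :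
    (SM q (Matrix.transvection i j c)).det = 1 := by
  set D : Matrix (Fin r) (Fin r) K := Matrix.diagonal (Function.update 1 i 2) with hD
  set T := Matrix.transvection i j c with hT
  have hTd : T.det ≠ 0 := by
    rw [hT, Matrix.det_transvection_of_ne _ _ hij]
    exact one_ne_zero
  have hDd : D.det ≠ 0 := by
    rw [hD, Matrix.det_diagonal, prod_ne_zero_iff]
    intro k _
    by_cases h : k = i
    · rw [h, Function.update_self]
      exact two_ne_zero
    · rw [Function.update_of_ne h]
      exact one_ne_zero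
  have hrel : D * T = T * T * D := by
    rw [hT, Matrix.transvection_mul_transvection_same i j hij, hD]
    ext a b
    rw [Matrix.diagonal_mul, Matrix.mul_diagonal]
    unfold Matrix.transvection
    simp only [Matrix.add_apply, Matrix.one_apply, Matrix.single_apply]
    by_cases ha : a = i
    · subst ha
      by_cases hb : b = j
      · subst hb
        simp [Function.update_of_ne hij.symm, hij]
        ring
      · by_cases hb2 : b = a
        · subst hb2
          simp [Ne.symm hb]
        · simp [Ne.symm hb, Ne.symm hb2]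
    · by_cases hb2 : a = b
      · subst hb2
        simp [Ne.symm ha, Function.update_of_ne ha]
      · simp [Ne.symm ha, hb2]
  have h2 := congrArg (fun M => (SM q M).det) hrel
  simp only [SM_mul, Matrix.det_mul] at h2
  have h3 := SM_det_ne q T hTd
  have h4 := SM_det_ne q D hDd
  have h5 : (SM q T).det * (SM q D).det * ((SM q T).det - 1) = 0 := by
    linear_combination -h2
  rcases mul_eq_zero.1 h5 with h | h
  · exact absurd h (mul_ne_zero h3 h4)
  · exact sub_eq_zero.1 h

theorem SM_det [CharZero K] (q : ℕ) (A : Matrix (Fin r) (Fin r) K) (hA : A.det ≠ 0) :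
    (SM q A).det ^ r = A.det ^ (q * Fintype.card (Mn r q)) := by
  refine Matrix.diagonal_transvection_induction_of_det_ne_zero
    (fun A => (SM q A).det ^ r = A.det ^ (q * Fintype.card (Mn r q))) A hA ?_ ?_ ?_
  · intro d _
    exact SM_diag_det q d
  · intro t
    change (SM q (Matrix.transvection t.i t.j t.c)).det ^ r = _
    rw [SM_transvection q t.i t.j t.hij t.c, one_pow]
    have : (t.toMatrix).det = 1 := Matrix.det_transvection_of_ne _ _ t.hij t.c
    rw [this, one_pow]
  · intro A B _ _ h1 h2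
    rw [SM_mul, Matrix.det_mul, Matrix.det_mul, mul_pow, mul_pow, h1, h2]

end

end Pool.Agent.Helper15.CC
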